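import Mathlib

/-!
Sums of `k ^ (-(1+ε))` compared with the integral, uniformly in `ε`.
-/

set_option autoImplicit false

open Finset

namespace Pool.Agent.H168Z.QF

noncomputable section

/-- the integral of `u ^ (-(1+ε))` from `1` to `t` -/
def FF (ε t : ℝ) : ℝ := (1 - t ^ (-ε)) / ε

/-- the truncated zeta sum -/
def ZZ (ε : ℝ) (N : ℕ) : ℝ := ∑ k ∈ Ioc 0 N, (k : ℝ) ^ (-(1 + ε))

/-- the difference -/
def aa (ε : ℝ) (N : ℕ) : ℝ := ZZ ε N - FF ε N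

lemma FF_mvt {ε x y : ℝ} (hε : ε ≠ 0) (hε1 : 0 ≤ 1 + ε) (hx : 0 < x) (hxy : x ≤ y) :
    (y - x) * y ^ (-(1 + ε)) ≤ FF ε y - FF ε x ∧ FF ε y - FF ε x ≤ (y - x) * x ^ (-(1 + ε)) := by
  rcases hxy.eq_or_lt with rfl | hlt
  · simp
  have hd : ∀ t : ℝ, 0 < t → HasDerivAt (FF ε) (t ^ (-(1 + ε))) t := by
    intro t ht
    have h1 := (Real.hasDerivAt_rpow_const (x := t) (p := -ε) (Or.inl ht.ne'))
    have h2 := (h1.const_sub 1).div_const ε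
    have e : -(-ε * t ^ (-ε - 1)) / ε = t ^ (-(1 + ε)) := by
      rw [show -(1 + ε) = -ε - 1 by ring]
      field_simp
    rw [e] at h2
    exact h2
  obtain ⟨c, hc, hc2⟩ := exists_hasDerivAt_eq_slope (FF ε) (fun t => t ^ (-(1 + ε))) hlt
    (fun t ht => (hd t (lt_of_lt_of_le hx ht.1)).continuousAt.continuousWithinAt)
    (fun t ht => hd t (lt_trans hx ht.1))
  have hpos : 0 < y - x := sub_pos.2 hlt
  have e : FF ε y - FF ε x = (y - x) * c ^ (-(1 + ε)) := by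
    rw [hc2]; field_simp
  rw [e]
  have hc0 : 0 < c := lt_trans hx hc.1
  constructor
  · exact mul_le_mul_of_nonneg_left
      (Real.rpow_le_rpow_of_nonpos hc0 hc.2.le (by linarith)) hpos.le
  · exact mul_le_mul_of_nonneg_left
      (Real.rpow_le_rpow_of_nonpos hx hc.1.le (by linarith)) hpos.le

lemma aa_mono {ε : ℝ} (hε : ε ≠ 0) (hε1 : 0 ≤ 1 + ε) {N M : ℕ} (hN : 1 ≤ N) (hNM : N ≤ M) :
    aa ε M ≤ aa ε N ∧ aa ε N - (N : ℝ) ^ (-(1 + ε)) ≤ aa ε M - (M : ℝ) ^ (-(1 + ε)) := by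
  induction M, hNM using Nat.le_induction with
  | base => simp
  | succ M hM ih =>
    have hM0 : (0 : ℝ) < M := by exact_mod_cast (lt_of_lt_of_le Nat.one_pos (hN.trans hM))
    have h := FF_mvt hε hε1 hM0 (show (M : ℝ) ≤ (M : ℝ) + 1 by linarith)
    have e : aa ε (M + 1) = aa ε M + ((M : ℝ) + 1) ^ (-(1 + ε)) - (FF ε (M + 1) - FF ε M) := by
      unfold aa ZZ
      rw [Finset.sum_Ioc_succ_top (Nat.zero_le M)]
      push_cast
      ring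
    rw [e]
    simp only [add_sub_cancel_left, one_mul] at h
    push_cast
    constructor
    · linarith [ih.1, h.1]
    · linarith [ih.2, h.2]

lemma aa_one (ε : ℝ) : aa ε 1 = 1 := by
  simp [aa, ZZ, FF]

lemma aa_bound {ε : ℝ} (hε : ε ≠ 0) (hε1 : 0 ≤ 1 + ε) {M : ℕ} (hM : 1 ≤ M) :
    |aa ε M| ≤ 1 := by
  have h := aa_mono hε hε1 le_rfl hM
  rw [aa_one] at h
  have h0 : 0 ≤ (M : ℝ) ^ (-(1 + ε)) := by positivity
  simp only [Nat.cast_one, Real.one_rpow, sub_self] at h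
  rw [abs_le]
  constructor <;> linarith [h.1, h.2]

lemma ZZ_approx {ε t : ℝ} (hε : ε ≠ 0) (hε1 : |ε| ≤ 1 / 2) (ht : 1 ≤ t) {Y : ℕ}
    (hY : ⌊t⌋₊ ≤ Y) : |ZZ ε ⌊t⌋₊ - FF ε t - aa ε Y| ≤ 4 * t ^ (-(1 + ε)) := by
  obtain ⟨hl, hu⟩ := abs_le.1 hε1
  have h1 : 0 ≤ 1 + ε := by linarith
  set N := ⌊t⌋₊ with hN
  have hN1 : 1 ≤ N := Nat.le_floor (by simpa using ht)
  have hN0 : (1 : ℝ) ≤ N := by exact_mod_cast hN1
  have hNt : (N : ℝ) ≤ t := Nat.floor_le (by linarith)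
  have htN : t < N + 1 := Nat.lt_floor_add_one t
  have h := aa_mono hε h1 hN1 hY
  have h2 := FF_mvt hε h1 (by linarith : (0 : ℝ) < N) hNt
  have hY0 : 0 ≤ (Y : ℝ) ^ (-(1 + ε)) := by positivity
  have hNp : 0 ≤ (N : ℝ) ^ (-(1 + ε)) := by positivity
  have htp : 0 ≤ t ^ (-(1 + ε)) := by positivity
  have h3 : (t - N) * (N : ℝ) ^ (-(1 + ε)) ≤ (N : ℝ) ^ (-(1 + ε)) := by
    nlinarith
  have h4 : 0 ≤ (t - N) * t ^ (-(1 + ε)) := mul_nonneg (by linarith) htp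
  have h5 : (N : ℝ) ^ (-(1 + ε)) ≤ 4 * t ^ (-(1 + ε)) := by
    have a1 : (N : ℝ) ^ (-(1 + ε)) ≤ (t / 2) ^ (-(1 + ε)) :=
      Real.rpow_le_rpow_of_nonpos (by linarith) (by linarith) (by linarith)
    have a2 : (t / 2) ^ (-(1 + ε)) = (2 : ℝ) ^ (1 + ε) * t ^ (-(1 + ε)) := by
      rw [Real.div_rpow (by linarith) (by norm_num), Real.rpow_neg (by norm_num : (0 : ℝ) ≤ 2)]
      field_simp
    have a3 : (2 : ℝ) ^ (1 + ε) ≤ 4 := by
      calc (2 : ℝ) ^ (1 + ε) ≤ (2 : ℝ) ^ (2 : ℝ) :=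
            Real.rpow_le_rpow_of_exponent_le (by norm_num) (by linarith)
        _ = 4 := by norm_num
    rw [a2] at a1
    nlinarith
  have e : ZZ ε N - FF ε t - aa ε Y = (aa ε N - aa ε Y) - (FF ε t - FF ε N) := by
    unfold aa; ring
  rw [e, abs_le]
  constructor <;> linarith [h.1, h.2, h2.1, h2.2]

end

end Pool.Agent.H168Z.QF
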