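import Mathlib

/-!
Arithmetic lemmas: sums over squarefree divisors.
-/

set_option autoImplicit false

open Finset

namespace Pool.Agent.H168Z.QF

noncomputable section

lemma sum_swap (Y : ℕ) (G : ℕ → ℕ → ℝ) :
    ∑ m ∈ Ioc 0 Y, ∑ k ∈ Ioc 0 (Y / m), G m k = ∑ n ∈ Ioc 0 Y, ∑ m ∈ n.divisors, G m (n / m) := by
  rw [Finset.sum_sigma', Finset.sum_sigma']
  refine Finset.sum_nbij' (fun x => ⟨x.1 * x.2, x.1⟩) (fun x => ⟨x.2, x.1 / x.2⟩) ?_ ?_ ?_ ?_ ?_
  · rintro ⟨m, k⟩ h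
    simp only [mem_sigma, mem_Ioc, Nat.mem_divisors] at h ⊢
    obtain ⟨⟨h1, h2⟩, h3, h4⟩ := h
    have h5 : 0 < m * k := Nat.mul_pos h1 h3
    refine ⟨⟨h5, ?_⟩, dvd_mul_right _ _, h5.ne'⟩
    rw [mul_comm]
    exact (Nat.le_div_iff_mul_le h1).1 h4
  · rintro ⟨n, m⟩ h
    simp only [mem_sigma, mem_Ioc, Nat.mem_divisors] at h ⊢
    obtain ⟨⟨h1, h2⟩, h3, h4⟩ := h
    have h5 : 0 < m := Nat.pos_of_dvd_of_pos h3 h1
    have h6 : m ≤ n := Nat.le_of_dvd h1 h3
    exact ⟨⟨h5, h6.trans h2⟩, Nat.div_pos h6 h5, Nat.div_le_div_right h2⟩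
  · rintro ⟨m, k⟩ h
    simp only [mem_sigma, mem_Ioc] at h
    simp only [Nat.mul_div_cancel_left k h.1.1]
  · rintro ⟨n, m⟩ h
    simp only [mem_sigma, mem_Ioc, Nat.mem_divisors] at h
    simp only [Nat.mul_div_cancel' h.2.1]
  · rintro ⟨m, k⟩ h
    simp only [mem_sigma, mem_Ioc] at h
    simp only [Nat.mul_div_cancel_left k h.1.1]

lemma sum_multiples (N r : ℕ) (hr : 0 < r) (g : ℕ → ℝ) :
    ∑ d ∈ Icc 1 N, (if r ∣ d then g d else 0) = ∑ m ∈ Ioc 0 (N / r), g (r * m) := by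
  rw [← Finset.sum_filter]
  symm
  refine Finset.sum_nbij' (fun m => r * m) (fun d => d / r) ?_ ?_ ?_ ?_ ?_
  · intro m h
    simp only [mem_filter, mem_Ioc, mem_Icc] at h ⊢
    refine ⟨⟨Nat.mul_pos hr h.1, ?_⟩, dvd_mul_right _ _⟩
    rw [mul_comm]
    exact (Nat.le_div_iff_mul_le hr).1 h.2
  · intro d h
    simp only [mem_filter, mem_Ioc, mem_Icc] at h ⊢
    exact ⟨Nat.div_pos (Nat.le_of_dvd h.1.1 h.2) hr, Nat.div_le_div_right h.1.2⟩
  · intro m _
    simp only [Nat.mul_div_cancel_left m hr]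
  · intro d h
    simp only [mem_filter] at h
    simp only [Nat.mul_div_cancel' h.2]
  · intro m _
    rfl

open Classical in
/-- a multiplicative function supported on the squarefree numbers -/
def PP (c : ℕ → ℝ) (d : ℕ) : ℝ := if Squarefree d then ∏ p ∈ d.primeFactors, c p else 0

lemma PP_sum {n : ℕ} (hn : n ≠ 0) (c : ℕ → ℝ) :
    ∑ d ∈ n.divisors, PP c d = ∏ p ∈ n.primeFactors, (1 + c p) := by
  classical
  unfold PP
  rw [← Finset.sum_filter, Finset.prod_one_add]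
  refine Finset.sum_nbij' (fun d => d.primeFactors) (fun t => ∏ p ∈ t, p) ?_ ?_ ?_ ?_ ?_
  · intro d h
    simp only [mem_filter, Nat.mem_divisors, mem_powerset] at h ⊢
    exact Nat.primeFactors_mono h.1.1 hn
  · intro t h
    simp only [mem_filter, Nat.mem_divisors, mem_powerset] at h ⊢
    refine ⟨⟨(Finset.prod_dvd_prod_of_subset _ _ _ h).trans (Nat.prod_primeFactors_dvd n), hn⟩, ?_⟩
    refine Finset.squarefree_prod_of_pairwise_isCoprime (fun p hp q hq hpq => ?_)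
      fun p hp => (Nat.prime_of_mem_primeFactors (h hp)).squarefree
    simp only [Function.onFun, ← Nat.coprime_iff_isRelPrime]
    exact (Nat.coprime_primes (Nat.prime_of_mem_primeFactors (h hp))
      (Nat.prime_of_mem_primeFactors (h hq))).2 hpq
  · intro d h
    simp only [mem_filter] at h
    exact Nat.prod_primeFactors_of_squarefree h.2
  · intro t h
    simp only [mem_powerset] at h
    exact Nat.primeFactors_prod fun p hp => Nat.prime_of_mem_primeFactors (h hp)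
  · intro d _
    rfl

lemma sqfree_rpow {d : ℕ} (hd : Squarefree d) (x : ℝ) :
    (d : ℝ) ^ x = ∏ p ∈ d.primeFactors, (p : ℝ) ^ x := by
  rw [Real.finsetProd_rpow _ _ (fun p _ => by positivity), ← Nat.cast_prod,
    Nat.prod_primeFactors_of_squarefree hd]

lemma PP_rpow (c : ℕ → ℝ) (d : ℕ) (x : ℝ) :
    PP c d * (d : ℝ) ^ x = PP (fun p => c p * (p : ℝ) ^ x) d := by
  unfold PP
  split_ifs with h
  · rw [sqfree_rpow h, Finset.prod_mul_distrib]
  · simp

lemma PP_nonneg {c : ℕ → ℝ} (hc : ∀ p, p.Prime → 0 ≤ c p) (d : ℕ) : 0 ≤ PP c d := by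
  unfold PP
  split_ifs with h
  · exact Finset.prod_nonneg fun p hp => hc p (Nat.prime_of_mem_primeFactors hp)
  · exact le_rfl

/-- `μ(m)` restricted to the `m` coprime to `r` -/
def hh (r m : ℕ) : ℝ := PP (fun p => if p ∣ r then 0 else -1) m

lemma abs_hh (r m : ℕ) : |hh r m| ≤ 1 := by
  unfold hh PP
  split_ifs with h
  · rw [Finset.abs_prod]
    refine Finset.prod_le_one (fun p _ => abs_nonneg _) fun p _ => ?_
    split_ifs <;> simp
  · simp

lemma mu_mul {r m : ℕ} (hm : m ≠ 0) :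
    ((ArithmeticFunction.moebius (r * m) : ℤ) : ℝ) =
      ((ArithmeticFunction.moebius r : ℤ) : ℝ) * hh r m := by
  by_cases hc : Nat.Coprime r m
  · rw [ArithmeticFunction.isMultiplicative_moebius.map_mul_of_coprime hc, Int.cast_mul]
    congr 1
    unfold hh PP
    split_ifs with h
    · rw [← ArithmeticFunction.isMultiplicative_moebius.prod_primeFactors h, Int.cast_prod]
      refine Finset.prod_congr rfl fun p hp => ?_
      have hpp := Nat.prime_of_mem_primeFactors hp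
      have hnd : ¬ p ∣ r := by
        intro hpr
        have := Nat.dvd_gcd hpr (Nat.dvd_of_mem_primeFactors hp)
        rw [hc] at this
        exact hpp.one_lt.ne' (Nat.dvd_one.1 this)
      rw [ArithmeticFunction.moebius_apply_prime hpp]
      simp [hnd]
    · rw [ArithmeticFunction.moebius_eq_zero_of_not_squarefree h]
      simp
  · have h1 : ¬ Squarefree (r * m) := fun h => hc (Nat.coprime_of_squarefree_mul h)
    rw [ArithmeticFunction.moebius_eq_zero_of_not_squarefree h1]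
    have h2 : hh r m = 0 := by
      unfold hh PP
      split_ifs with h
      · obtain ⟨p, hp, hpr, hpm⟩ := Nat.Prime.not_coprime_iff_dvd.1 hc
        exact Finset.prod_eq_zero (Nat.mem_primeFactors.2 ⟨hp, hpm, hm⟩) (if_pos hpr)
      · rfl
    rw [h2]
    simp

/-- `r / φ(r)` -/
def rho (r : ℕ) : ℝ := ∏ p ∈ r.primeFactors, (1 - (p : ℝ)⁻¹)⁻¹

lemma one_le_rho (r : ℕ) : 1 ≤ rho r := by
  unfold rho
  calc (1 : ℝ) = ∏ _p ∈ r.primeFactors, (1 : ℝ) := by simp
    _ ≤ _ := by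
      refine Finset.prod_le_prod (fun _ _ => zero_le_one) fun p hp => ?_
      have h1 : (1 : ℝ) < p := by exact_mod_cast (Nat.prime_of_mem_primeFactors hp).one_lt
      have h2 : (p : ℝ)⁻¹ < 1 := inv_lt_one_of_one_lt₀ h1
      have h3 : 0 < (p : ℝ)⁻¹ := by positivity
      exact one_le_inv_iff₀.2 ⟨by linarith, by linarith⟩

lemma sum_hh_nonneg {n : ℕ} (hn : n ≠ 0) (r : ℕ) : 0 ≤ ∑ m ∈ n.divisors, hh r m := by
  unfold hh
  rw [PP_sum hn]
  refine Finset.prod_nonneg fun p _ => ?_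
  split_ifs <;> norm_num

lemma smooth_sum {r : ℕ} (hr : r ≠ 0) (Y : ℕ) :
    ∑ n ∈ Ioc 0 Y, (∑ m ∈ n.divisors, hh r m) * (n : ℝ)⁻¹ ≤ rho r := by
  classical
  obtain ⟨f, hfv⟩ : ∃ f : ℕ →* ℝ, ∀ n, f n = (n : ℝ)⁻¹ :=
    ⟨{ toFun := fun n => (n : ℝ)⁻¹
       map_one' := by simp
       map_mul' := fun a b => by push_cast; rw [mul_inv] }, fun _ => rfl⟩
  have hf : ∀ {p : ℕ}, p.Prime → ‖f p‖ < 1 := by
    intro p hp
    have h1 : (1 : ℝ) < p := by exact_mod_cast hp.one_lt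
    rw [hfv, Real.norm_eq_abs, abs_of_pos (by positivity)]
    exact inv_lt_one_of_one_lt₀ h1
  have h := (EulerProduct.summable_and_hasSum_factoredNumbers_prod_filter_prime_geometric hf
    r.primeFactors).2
  have e : ∏ p ∈ r.primeFactors with p.Prime, (1 - f p)⁻¹ = rho r := by
    rw [Finset.filter_true_of_mem fun p hp => Nat.prime_of_mem_primeFactors hp]
    simp only [hfv, rho]
  rw [e] at h
  have h2 : HasSum ((Nat.factoredNumbers r.primeFactors).indicator fun n : ℕ => f n) (rho r) :=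
    (hasSum_subtype_iff_indicator (f := fun n : ℕ => f n)
      (s := Nat.factoredNumbers r.primeFactors)).1 h
  have h3 := sum_le_hasSum (Ioc 0 Y) (fun n _ => Set.indicator_nonneg
    (fun n _ => by rw [hfv]; positivity) n) h2
  refine le_trans (Finset.sum_le_sum fun n hn => ?_) h3
  have hn0 : n ≠ 0 := (mem_Ioc.1 hn).1.ne'
  unfold hh
  rw [PP_sum hn0]
  by_cases hs : n ∈ Nat.factoredNumbers r.primeFactors
  · rw [Set.indicator_of_mem hs, hfv]
    refine mul_le_of_le_one_left (by positivity) ?_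
    refine Finset.prod_le_one (fun p _ => ?_) fun p _ => ?_
    · split_ifs <;> norm_num
    · split_ifs <;> norm_num
  · rw [Set.indicator_of_notMem hs]
    have : ¬ n.primeFactors ⊆ r.primeFactors := fun hsub =>
      hs (Nat.mem_factoredNumbers_of_primeFactors_subset hn0 hsub)
    obtain ⟨p, hp, hpr⟩ := Finset.not_subset.1 this
    have hnd : ¬ p ∣ r := fun hd =>
      hpr (Nat.mem_primeFactors.2 ⟨Nat.prime_of_mem_primeFactors hp, hd, hr⟩)
    rw [Finset.prod_eq_zero hp (by simp [hnd])]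
    simp

lemma sum_hh_rpow {n : ℕ} (hn : n ≠ 0) (r : ℕ) (ε : ℝ) :
    |∑ m ∈ n.divisors, hh r m * (m : ℝ) ^ (-ε)| ≤ (n : ℝ) ^ |ε| := by
  unfold hh
  simp_rw [PP_rpow]
  rw [PP_sum hn, Finset.abs_prod]
  have h1 : ∏ p ∈ n.primeFactors, |1 + (if p ∣ r then 0 else -1) * (p : ℝ) ^ (-ε)| ≤
      ∏ p ∈ n.primeFactors, (p : ℝ) ^ |ε| := by
    refine Finset.prod_le_prod (fun p _ => abs_nonneg _) fun p hp => ?_
    have hp1 : (1 : ℝ) ≤ p := by exact_mod_cast (Nat.prime_of_mem_primeFactors hp).one_lt.le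
    have a1 : 1 ≤ (p : ℝ) ^ |ε| := Real.one_le_rpow hp1 (abs_nonneg _)
    have a2 : (p : ℝ) ^ (-ε) ≤ (p : ℝ) ^ |ε| :=
      Real.rpow_le_rpow_of_exponent_le hp1 (neg_le_abs ε)
    have a3 : 0 ≤ (p : ℝ) ^ (-ε) := by positivity
    split_ifs
    · simpa using a1
    · rw [abs_le]
      constructor <;> linarith
  refine h1.trans ?_
  rw [Real.finsetProd_rpow _ _ (fun p _ => by positivity), ← Nat.cast_prod]
  refine Real.rpow_le_rpow (by positivity) ?_ (abs_nonneg _)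
  exact_mod_cast Nat.le_of_dvd (Nat.pos_of_ne_zero hn) (Nat.prod_primeFactors_dvd n)

lemma rho_sq (r : ℕ) : rho r ^ 2 ≤ ∏ p ∈ r.primeFactors, (1 + 6 * (p : ℝ)⁻¹) := by
  unfold rho
  rw [← Finset.prod_pow]
  refine Finset.prod_le_prod (fun p _ => by positivity) fun p hp => ?_
  have hp2 : (2 : ℝ) ≤ p := by exact_mod_cast (Nat.prime_of_mem_primeFactors hp).two_le
  have h1 : (p : ℝ)⁻¹ ≤ 1 / 2 := by
    rw [← one_div]
    exact one_div_le_one_div_of_le (by norm_num) hp2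
  have h0 : 0 < (p : ℝ)⁻¹ := by positivity
  generalize (p : ℝ)⁻¹ = x at h1 h0
  have h2 : 0 < 1 - x := by linarith
  rw [inv_pow, inv_le_iff_one_le_mul₀ (by positivity)]
  have h3 : 0 ≤ x * ((1 - 2 * x) * (4 - 3 * x)) :=
    mul_nonneg h0.le (mul_nonneg (by linarith) (by linarith))
  nlinarith

lemma harm (N : ℕ) {R : ℝ} (hR : 1 ≤ R) (hN : (N : ℝ) ≤ R) :
    ∑ j ∈ Ioc 0 N, (j : ℝ)⁻¹ ≤ 1 + Real.log R := by
  have h := harmonic_le_one_add_log N
  have e : ((harmonic N : ℚ) : ℝ) = ∑ j ∈ Ioc 0 N, (j : ℝ)⁻¹ := by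
    rw [harmonic_eq_sum_Icc]
    push_cast
    rfl
  rw [← e]
  refine h.trans ?_
  rcases Nat.eq_zero_or_pos N with rfl | hN0
  · simpa using Real.log_nonneg hR
  · have : (0 : ℝ) < N := by exact_mod_cast hN0
    linarith [Real.log_le_log this hN]

lemma sum_PP_le (N : ℕ) :
    ∑ k ∈ Ioc 0 N, PP (fun p => 6 * (p : ℝ)⁻¹) k * (k : ℝ)⁻¹ ≤ Real.exp 6 := by
  simp_rw [← Real.rpow_neg_one, PP_rpow]
  have hf : N.factorial ≠ 0 := Nat.factorial_ne_zero N
  have h1 : Ioc 0 N ⊆ N.factorial.divisors := by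
    intro k hk
    rw [mem_Ioc] at hk
    exact Nat.mem_divisors.2 ⟨Nat.dvd_factorial hk.1 hk.2, hf⟩
  refine (Finset.sum_le_sum_of_subset_of_nonneg h1 fun k _ _ =>
    PP_nonneg (fun p _ => by positivity) k).trans ?_
  rw [PP_sum hf]
  refine (Real.prod_one_add_le_exp_sum _ fun p => by positivity).trans ?_
  refine Real.exp_le_exp.2 ?_
  have h2 : N.factorial.primeFactors ⊆ Ioo 1 (N.factorial + 1) := by
    intro p hp
    rw [mem_Ioo]
    exact ⟨(Nat.prime_of_mem_primeFactors hp).one_lt,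
      Nat.lt_succ_of_le (Nat.le_of_mem_primeFactors hp)⟩
  refine (Finset.sum_le_sum_of_subset_of_nonneg h2 fun k _ _ => by positivity).trans ?_
  have h3 := sum_Ioo_inv_sq_le (α := ℝ) 1 (N.factorial + 1)
  have e : ∑ i ∈ Ioo 1 (N.factorial + 1), 6 * (i : ℝ) ^ (-1 : ℝ) * (i : ℝ) ^ (-1 : ℝ) =
      6 * ∑ i ∈ Ioo 1 (N.factorial + 1), ((i : ℝ) ^ 2)⁻¹ := by
    rw [Finset.mul_sum]
    refine Finset.sum_congr rfl fun i _ => ?_
    rw [Real.rpow_neg_one, pow_two, mul_inv, mul_assoc]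
  rw [e]
  norm_num at h3 ⊢
  linarith

open Classical in
lemma final_sum (N : ℕ) {R : ℝ} (hR : 1 ≤ R) (hN : (N : ℝ) ≤ R) :
    ∑ r ∈ Ioc 0 N, (if Squarefree r then rho r ^ 2 * (r : ℝ)⁻¹ else 0) ≤
      Real.exp 6 * (1 + Real.log R) := by
  set c : ℕ → ℝ := fun p => 6 * (p : ℝ)⁻¹ with hc
  have hc0 : ∀ k, 0 ≤ PP c k := PP_nonneg fun p _ => by positivity
  have h1 : ∑ r ∈ Ioc 0 N, (if Squarefree r then rho r ^ 2 * (r : ℝ)⁻¹ else 0) ≤
      ∑ r ∈ Ioc 0 N, ∑ k ∈ r.divisors, PP c k * (k : ℝ)⁻¹ * ((r / k : ℕ) : ℝ)⁻¹ := by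
    refine Finset.sum_le_sum fun r hr => ?_
    have hr0 : r ≠ 0 := (mem_Ioc.1 hr).1.ne'
    have e : ∑ k ∈ r.divisors, PP c k * (k : ℝ)⁻¹ * ((r / k : ℕ) : ℝ)⁻¹ =
        (∑ k ∈ r.divisors, PP c k) * (r : ℝ)⁻¹ := by
      rw [Finset.sum_mul]
      refine Finset.sum_congr rfl fun k hk => ?_
      rw [mul_assoc, ← mul_inv, ← Nat.cast_mul, Nat.mul_div_cancel' (Nat.dvd_of_mem_divisors hk)]
    rw [e, PP_sum hr0]
    split_ifs
    · exact mul_le_mul_of_nonneg_right (rho_sq r) (by positivity)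
    · exact mul_nonneg (Finset.prod_nonneg fun p _ => by positivity) (by positivity)
  refine h1.trans ?_
  rw [← sum_swap N (fun k j => PP c k * (k : ℝ)⁻¹ * (j : ℝ)⁻¹)]
  have hL : 0 ≤ 1 + Real.log R := by linarith [Real.log_nonneg hR]
  calc ∑ k ∈ Ioc 0 N, ∑ j ∈ Ioc 0 (N / k), PP c k * (k : ℝ)⁻¹ * (j : ℝ)⁻¹
      ≤ ∑ k ∈ Ioc 0 N, PP c k * (k : ℝ)⁻¹ * (1 + Real.log R) := by
        refine Finset.sum_le_sum fun k _ => ?_
        rw [← Finset.mul_sum]
        refine mul_le_mul_of_nonneg_left (harm _ hR ?_) (mul_nonneg (hc0 k) (by positivity))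
        exact le_trans (by exact_mod_cast Nat.div_le_self N k) hN
    _ ≤ Real.exp 6 * (1 + Real.log R) := by
        rw [← Finset.sum_mul]
        exact mul_le_mul_of_nonneg_right (sum_PP_le N) hL

end

end Pool.Agent.H168Z.QF
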