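import Mathlib
import Pool.Agent.H168Z.QF.A
import Pool.Agent.H168Z.QF.B

/-!
The key bound for the smoothed Möbius sums.
-/

set_option autoImplicit false

open Finset

namespace Pool.Agent.H168Z.QF

noncomputable section

lemma rpow_neg_le {x y ε : ℝ} (hx : 1 ≤ x) (hxy : x ≤ y) : x ^ (-ε) ≤ y ^ |ε| :=
  (Real.rpow_le_rpow_of_exponent_le hx (neg_le_abs ε)).trans
    (Real.rpow_le_rpow (by linarith) hxy (abs_nonneg _))

lemma rpow_split {x : ℝ} (hx : 0 < x) (ε : ℝ) : x ^ (-(1 + ε)) = x⁻¹ * x ^ (-ε) := by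
  rw [show -(1 + ε) = -1 + -ε by ring, Real.rpow_add hx, Real.rpow_neg_one]

lemma T_bound {r : ℕ} (hr : r ≠ 0) (ε : ℝ) {y : ℝ} {Y : ℕ} (hY : (Y : ℝ) ≤ y) (hy : 0 ≤ y) :
    |∑ m ∈ Ioc 0 Y, hh r m * (m : ℝ) ^ (-(1 + ε)) * ZZ ε (Y / m)| ≤ y ^ |ε| * rho r := by
  have e : ∑ m ∈ Ioc 0 Y, hh r m * (m : ℝ) ^ (-(1 + ε)) * ZZ ε (Y / m) =
      ∑ n ∈ Ioc 0 Y, (∑ m ∈ n.divisors, hh r m) * (n : ℝ) ^ (-(1 + ε)) := by
    unfold ZZ
    simp_rw [Finset.mul_sum]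
    rw [sum_swap Y (fun m k => hh r m * (m : ℝ) ^ (-(1 + ε)) * (k : ℝ) ^ (-(1 + ε)))]
    refine Finset.sum_congr rfl fun n _ => ?_
    rw [Finset.sum_mul]
    refine Finset.sum_congr rfl fun m hm => ?_
    rw [mul_assoc, ← Real.mul_rpow (by positivity) (by positivity), ← Nat.cast_mul,
      Nat.mul_div_cancel' (Nat.dvd_of_mem_divisors hm)]
  rw [e, abs_of_nonneg (Finset.sum_nonneg fun n hn =>
    mul_nonneg (sum_hh_nonneg (mem_Ioc.1 hn).1.ne' r) (by positivity))]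
  refine le_trans ?_ (mul_le_mul_of_nonneg_left (smooth_sum hr Y) (by positivity))
  rw [Finset.mul_sum]
  refine Finset.sum_le_sum fun n hn => ?_
  obtain ⟨h1, h2⟩ := mem_Ioc.1 hn
  have hn1 : (1 : ℝ) ≤ n := by exact_mod_cast h1
  have hn2 : (n : ℝ) ≤ y := le_trans (by exact_mod_cast h2) hY
  have h3 := rpow_neg_le (ε := ε) hn1 hn2
  have h4 := sum_hh_nonneg h1.ne' r
  rw [rpow_split (by linarith), ← mul_assoc, mul_comm (y ^ |ε|)]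
  exact mul_le_mul_of_nonneg_left h3 (mul_nonneg h4 (by positivity))

lemma U_bound (r : ℕ) (ε : ℝ) {y : ℝ} {Y : ℕ} (hY : (Y : ℝ) ≤ y) (hY1 : 1 ≤ Y) :
    |∑ m ∈ Ioc 0 Y, hh r m * (m : ℝ) ^ (-(1 + ε))| ≤ 2 * y ^ |ε| := by
  have hY0 : (0 : ℝ) < Y := by exact_mod_cast hY1
  have hV : |∑ m ∈ Ioc 0 Y, hh r m * (m : ℝ) ^ (-ε) * ((Y / m : ℕ) : ℝ)| ≤ Y * y ^ |ε| := by
    have e : ∑ m ∈ Ioc 0 Y, hh r m * (m : ℝ) ^ (-ε) * ((Y / m : ℕ) : ℝ) =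
        ∑ n ∈ Ioc 0 Y, ∑ m ∈ n.divisors, hh r m * (m : ℝ) ^ (-ε) := by
      rw [← sum_swap Y (fun m _ => hh r m * (m : ℝ) ^ (-ε))]
      refine Finset.sum_congr rfl fun m _ => ?_
      simp [mul_comm]
    rw [e]
    refine (Finset.abs_sum_le_sum_abs _ _).trans ?_
    refine (Finset.sum_le_card_nsmul _ _ (y ^ |ε|) fun n hn => ?_).trans (by simp)
    obtain ⟨h1, h2⟩ := mem_Ioc.1 hn
    refine (sum_hh_rpow h1.ne' r ε).trans ?_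
    exact Real.rpow_le_rpow (by positivity) (le_trans (by exact_mod_cast h2) hY) (abs_nonneg _)
  have hW : |∑ m ∈ Ioc 0 Y, hh r m * (m : ℝ) ^ (-ε) * ((Y : ℝ) / m - ((Y / m : ℕ) : ℝ))| ≤
      Y * y ^ |ε| := by
    refine (Finset.abs_sum_le_sum_abs _ _).trans ?_
    refine (Finset.sum_le_card_nsmul _ _ (y ^ |ε|) fun m hm => ?_).trans (by simp)
    obtain ⟨h1, h2⟩ := mem_Ioc.1 hm
    have hm1 : (1 : ℝ) ≤ m := by exact_mod_cast h1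
    have hm2 : (m : ℝ) ≤ y := le_trans (by exact_mod_cast h2) hY
    have a1 : ((Y / m : ℕ) : ℝ) ≤ (Y : ℝ) / m := Nat.cast_div_le
    have a2 : (Y : ℝ) / m < ((Y / m : ℕ) : ℝ) + 1 := by
      have := Nat.lt_floor_add_one ((Y : ℝ) / m)
      rwa [Nat.floor_div_natCast, Nat.floor_natCast] at this
    have a3 : |(Y : ℝ) / m - ((Y / m : ℕ) : ℝ)| ≤ 1 := by
      rw [abs_le]; constructor <;> linarith
    rw [abs_mul, abs_mul, abs_of_nonneg (by positivity : 0 ≤ (m : ℝ) ^ (-ε))]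
    have a4 := rpow_neg_le (ε := ε) hm1 hm2
    have a5 := abs_hh r m
    have hy0 : 0 < y := by linarith
    calc |hh r m| * (m : ℝ) ^ (-ε) * |(Y : ℝ) / m - ((Y / m : ℕ) : ℝ)|
        ≤ 1 * y ^ |ε| * 1 := by gcongr
      _ = y ^ |ε| := by ring
  have e : (Y : ℝ) * ∑ m ∈ Ioc 0 Y, hh r m * (m : ℝ) ^ (-(1 + ε)) =
      ∑ m ∈ Ioc 0 Y, hh r m * (m : ℝ) ^ (-ε) * ((Y / m : ℕ) : ℝ) +
      ∑ m ∈ Ioc 0 Y, hh r m * (m : ℝ) ^ (-ε) * ((Y : ℝ) / m - ((Y / m : ℕ) : ℝ)) := by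
    rw [Finset.mul_sum, ← Finset.sum_add_distrib]
    refine Finset.sum_congr rfl fun m hm => ?_
    have hm1 : (0 : ℝ) < m := by exact_mod_cast (mem_Ioc.1 hm).1
    rw [rpow_split hm1, div_eq_mul_inv]
    ring
  have h : |(Y : ℝ) * ∑ m ∈ Ioc 0 Y, hh r m * (m : ℝ) ^ (-(1 + ε))| ≤ Y * (2 * y ^ |ε|) := by
    rw [e]
    refine (abs_add_le _ _).trans ?_
    linarith
  rw [abs_mul, abs_of_pos hY0] at h
  exact le_of_mul_le_mul_left h hY0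

lemma S_bound {r : ℕ} (hr : r ≠ 0) {ε y : ℝ} (hε : ε ≠ 0) (hε1 : |ε| ≤ 1 / 2) (hy : 1 ≤ y) :
    |∑ m ∈ Ioc 0 ⌊y⌋₊, hh r m * (m : ℝ) ^ (-(1 + ε)) * FF ε (y / m)| ≤ 7 * y ^ |ε| * rho r := by
  set Y := ⌊y⌋₊ with hYdef
  have hY1 : 1 ≤ Y := Nat.le_floor (by simpa using hy)
  have hY : (Y : ℝ) ≤ y := Nat.floor_le (by linarith)
  have hy0 : 0 < y := by linarith
  have hT := T_bound hr ε hY hy0.le
  have hU := U_bound r ε hY hY1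
  have ha := aa_bound hε (by linarith [(abs_le.1 hε1).1]) hY1
  have hE : |∑ m ∈ Ioc 0 Y, hh r m * (m : ℝ) ^ (-(1 + ε)) *
      (ZZ ε (Y / m) - FF ε (y / m) - aa ε Y)| ≤ 4 * y ^ |ε| := by
    refine (Finset.abs_sum_le_sum_abs _ _).trans ?_
    refine (Finset.sum_le_card_nsmul _ _ (4 * y ^ (-(1 + ε))) fun m hm => ?_).trans ?_
    · obtain ⟨h1, h2⟩ := mem_Ioc.1 hm
      have hm0 : (0 : ℝ) < m := by exact_mod_cast h1
      have hm2 : (m : ℝ) ≤ y := le_trans (by exact_mod_cast h2) hY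
      have ht : 1 ≤ y / m := (one_le_div hm0).2 hm2
      have hfl : ⌊y / m⌋₊ = Y / m := Nat.floor_div_natCast y m
      have a1 := ZZ_approx hε hε1 ht (Y := Y) (by rw [hfl]; exact Nat.div_le_self _ _)
      rw [hfl] at a1
      have a2 := abs_hh r m
      rw [abs_mul, abs_mul, abs_of_nonneg (by positivity : 0 ≤ (m : ℝ) ^ (-(1 + ε)))]
      calc |hh r m| * (m : ℝ) ^ (-(1 + ε)) * |ZZ ε (Y / m) - FF ε (y / m) - aa ε Y|
          ≤ 1 * (m : ℝ) ^ (-(1 + ε)) * (4 * (y / m) ^ (-(1 + ε))) := by gcongr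
        _ = 4 * ((m : ℝ) ^ (-(1 + ε)) * (y / m) ^ (-(1 + ε))) := by ring
        _ = 4 * y ^ (-(1 + ε)) := by
          rw [← Real.mul_rpow hm0.le (by positivity), mul_div_cancel₀ _ hm0.ne']
    · simp only [Nat.card_Ioc, Nat.sub_zero, nsmul_eq_mul]
      rw [rpow_split hy0]
      have a1 := rpow_neg_le (ε := ε) hy le_rfl
      have a2 : (Y : ℝ) * y⁻¹ ≤ 1 := by
        rw [← div_eq_mul_inv]; exact (div_le_one hy0).2 hY
      calc (Y : ℝ) * (4 * (y⁻¹ * y ^ (-ε))) = 4 * ((Y : ℝ) * y⁻¹) * y ^ (-ε) := by ring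
        _ ≤ 4 * 1 * y ^ |ε| := by gcongr
        _ = 4 * y ^ |ε| := by ring
  have e : ∑ m ∈ Ioc 0 Y, hh r m * (m : ℝ) ^ (-(1 + ε)) * FF ε (y / m) =
      ∑ m ∈ Ioc 0 Y, hh r m * (m : ℝ) ^ (-(1 + ε)) * ZZ ε (Y / m) -
      aa ε Y * ∑ m ∈ Ioc 0 Y, hh r m * (m : ℝ) ^ (-(1 + ε)) -
      ∑ m ∈ Ioc 0 Y, hh r m * (m : ℝ) ^ (-(1 + ε)) *
        (ZZ ε (Y / m) - FF ε (y / m) - aa ε Y) := by
    rw [Finset.mul_sum, ← Finset.sum_sub_distrib, ← Finset.sum_sub_distrib]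
    refine Finset.sum_congr rfl fun m _ => ?_
    ring
  have hp : 0 ≤ y ^ |ε| := by positivity
  have h2 : |aa ε Y * ∑ m ∈ Ioc 0 Y, hh r m * (m : ℝ) ^ (-(1 + ε))| ≤ 2 * y ^ |ε| := by
    rw [abs_mul]
    calc _ ≤ 1 * (2 * y ^ |ε|) := by gcongr
      _ = _ := one_mul _
  have h3 : y ^ |ε| ≤ y ^ |ε| * rho r := le_mul_of_one_le_right hp (one_le_rho r)
  rw [e]
  refine (abs_sub _ _).trans ?_
  refine (add_le_add_left (abs_sub _ _) _).trans ?_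
  linarith

/-- the inner sum after pulling out `r` -/
lemma inner_bound {r : ℕ} (hr : r ≠ 0) {δ α y : ℝ} (hδ : 0 < δ) (hδ1 : δ ≤ 1 / 2) (hy : 1 ≤ y)
    (hα : α = 1 ∨ α = 1 + δ) :
    |∑ m ∈ Ioc 0 ⌊y⌋₊, hh r m * (y ^ δ - (m : ℝ) ^ δ) * (m : ℝ) ^ (-α)| ≤
      7 * δ * y ^ (2 * δ) * rho r := by
  have hy0 : 0 < y := by linarith
  have hyδ : 1 ≤ y ^ δ := Real.one_le_rpow hy hδ.le
  have h2δ : y ^ (2 * δ) = y ^ δ * y ^ δ := by rw [two_mul, Real.rpow_add hy0]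
  have hrho := one_le_rho r
  rcases hα with rfl | rfl
  · have h := S_bound hr (ε := -δ) (by linarith) (by rw [abs_neg, abs_of_pos hδ]; exact hδ1) hy
    rw [abs_neg, abs_of_pos hδ] at h
    have e : ∑ m ∈ Ioc 0 ⌊y⌋₊, hh r m * (y ^ δ - (m : ℝ) ^ δ) * (m : ℝ) ^ (-(1 : ℝ)) =
        δ * ∑ m ∈ Ioc 0 ⌊y⌋₊, hh r m * (m : ℝ) ^ (-(1 + -δ)) * FF (-δ) (y / m) := by
      rw [Finset.mul_sum]
      refine Finset.sum_congr rfl fun m hm => ?_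
      have hm0 : (0 : ℝ) < m := by exact_mod_cast (mem_Ioc.1 hm).1
      have hmδ : 0 < (m : ℝ) ^ δ := by positivity
      unfold FF
      rw [rpow_split hm0, neg_neg, Real.div_rpow hy0.le hm0.le, Real.rpow_neg_one]
      field_simp
      ring
    rw [e, abs_mul, abs_of_pos hδ, h2δ]
    calc δ * _ ≤ δ * (7 * y ^ δ * rho r) := mul_le_mul_of_nonneg_left h hδ.le
      _ = 7 * δ * (y ^ δ * 1) * rho r := by ring
      _ ≤ 7 * δ * (y ^ δ * y ^ δ) * rho r := by gcongr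
  · have h := S_bound hr (ε := δ) hδ.ne' (by rw [abs_of_pos hδ]; exact hδ1) hy
    rw [abs_of_pos hδ] at h
    have e : ∑ m ∈ Ioc 0 ⌊y⌋₊, hh r m * (y ^ δ - (m : ℝ) ^ δ) * (m : ℝ) ^ (-(1 + δ)) =
        δ * y ^ δ * ∑ m ∈ Ioc 0 ⌊y⌋₊, hh r m * (m : ℝ) ^ (-(1 + δ)) * FF δ (y / m) := by
      rw [Finset.mul_sum]
      refine Finset.sum_congr rfl fun m hm => ?_
      have hm0 : (0 : ℝ) < m := by exact_mod_cast (mem_Ioc.1 hm).1
      have hmδ : 0 < (m : ℝ) ^ δ := by positivity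
      unfold FF
      rw [Real.rpow_neg (by positivity : 0 ≤ y / m), Real.div_rpow hy0.le hm0.le]
      field_simp
    rw [e, abs_mul, abs_of_pos (by positivity), h2δ]
    calc δ * y ^ δ * _ ≤ δ * y ^ δ * (7 * y ^ δ * rho r) :=
          mul_le_mul_of_nonneg_left h (by positivity)
      _ = 7 * δ * (y ^ δ * y ^ δ) * rho r := by ring

end

end Pool.Agent.H168Z.QF
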