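import Mathlib
import Pool.Agent.H369Z.Hoh.Defs
import Pool.Agent.H168Z.QF.C

/-!
Diagonalisation bound for the bilinear form of the sieve weights.
-/

set_option autoImplicit false

open Finset

namespace Pool.Agent.H168Z.QF

open Pool.Agent.H369Z.Hoh

noncomputable section

/-- the sum of the weights over the multiples of `r` -/
def YY (δ α R : ℝ) (r : ℕ) : ℝ :=
  ∑ d ∈ Icc 1 ⌊R⌋₊, (if r ∣ d then wt δ R d * (d : ℝ) ^ (-α) else 0)

/-- the Jordan-type function -/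
def ff (α : ℝ) (r : ℕ) : ℝ := PP (fun p => (p : ℝ) ^ α - 1) r

lemma YY_bound {r : ℕ} (hr : r ≠ 0) {δ α R : ℝ} (hδ : 0 < δ) (hδ1 : δ ≤ 1 / 2) (hR : 1 ≤ R)
    (hα : α = 1 ∨ α = 1 + δ) :
    |YY δ α R r| ≤ 7 * δ * R ^ (2 * δ) * rho r * (r : ℝ) ^ (-α) := by
  have hr0 : (0 : ℝ) < r := by exact_mod_cast Nat.pos_of_ne_zero hr
  have hr1 : (1 : ℝ) ≤ r := by exact_mod_cast Nat.pos_of_ne_zero hr
  have hR0 : 0 < R := by linarith
  have hrho := one_le_rho r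
  unfold YY
  rw [sum_multiples _ r (Nat.pos_of_ne_zero hr) (fun d => wt δ R d * (d : ℝ) ^ (-α)),
    ← Nat.floor_div_natCast]
  by_cases hy : 1 ≤ R / r
  · have h := inner_bound hr hδ hδ1 hy hα
    have e : ∑ m ∈ Ioc 0 ⌊R / r⌋₊, wt δ R (r * m) * ((r * m : ℕ) : ℝ) ^ (-α) =
        ((ArithmeticFunction.moebius r : ℤ) : ℝ) * ((r : ℝ) ^ δ * (r : ℝ) ^ (-α)) *
        ∑ m ∈ Ioc 0 ⌊R / r⌋₊, hh r m * ((R / r) ^ δ - (m : ℝ) ^ δ) * (m : ℝ) ^ (-α) := by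
      rw [Finset.mul_sum]
      refine Finset.sum_congr rfl fun m hm => ?_
      have hm : m ≠ 0 := (mem_Ioc.1 hm).1.ne'
      have hrδ : 0 < (r : ℝ) ^ δ := by positivity
      unfold wt
      rw [mu_mul hm, Nat.cast_mul, Real.mul_rpow hr0.le (by positivity),
        Real.mul_rpow hr0.le (by positivity), Real.div_rpow hR0.le hr0.le]
      field_simp
    have hmu : |((ArithmeticFunction.moebius r : ℤ) : ℝ)| ≤ 1 := by
      exact_mod_cast ArithmeticFunction.abs_moebius_le_one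
    have h2 : (r : ℝ) ^ δ * (R / r) ^ (2 * δ) ≤ R ^ (2 * δ) := by
      rw [Real.div_rpow hR0.le hr0.le]
      have a1 : (r : ℝ) ^ δ ≤ (r : ℝ) ^ (2 * δ) :=
        Real.rpow_le_rpow_of_exponent_le hr1 (by linarith)
      have a2 : 0 < (r : ℝ) ^ (2 * δ) := by positivity
      calc (r : ℝ) ^ δ * (R ^ (2 * δ) / (r : ℝ) ^ (2 * δ))
          ≤ (r : ℝ) ^ (2 * δ) * (R ^ (2 * δ) / (r : ℝ) ^ (2 * δ)) := by gcongr
        _ = R ^ (2 * δ) := by field_simp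
    rw [e, abs_mul, abs_mul, abs_of_pos (by positivity : 0 < (r : ℝ) ^ δ * (r : ℝ) ^ (-α))]
    calc |((ArithmeticFunction.moebius r : ℤ) : ℝ)| * ((r : ℝ) ^ δ * (r : ℝ) ^ (-α)) * _
        ≤ 1 * ((r : ℝ) ^ δ * (r : ℝ) ^ (-α)) * (7 * δ * (R / r) ^ (2 * δ) * rho r) := by gcongr
      _ = 7 * δ * ((r : ℝ) ^ δ * (R / r) ^ (2 * δ)) * rho r * (r : ℝ) ^ (-α) := by ring
      _ ≤ 7 * δ * R ^ (2 * δ) * rho r * (r : ℝ) ^ (-α) := by gcongr
  · rw [Nat.floor_eq_zero.2 (not_le.1 hy)]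
    simp only [Ioc_self, sum_empty, abs_zero]
    positivity

lemma wt_zero {δ R : ℝ} {d : ℕ} (hd : ¬ Squarefree d) : wt δ R d = 0 := by
  unfold wt
  rw [ArithmeticFunction.moebius_eq_zero_of_not_squarefree hd]
  simp

lemma ff_sum (α : ℝ) {g : ℕ} (hg : Squarefree g) :
    ∑ r ∈ g.divisors, ff α r = (g : ℝ) ^ α := by
  unfold ff
  rw [PP_sum hg.ne_zero, sqfree_rpow hg]
  exact Finset.prod_congr rfl fun p _ => by ring

lemma QF_eq (δ α R R' : ℝ) :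
    QF δ α R R' = ∑ r ∈ Ioc 0 ⌊R⌋₊, ff α r * (YY δ α R r * YY δ α R' r) := by
  unfold QF YY
  simp_rw [Finset.sum_mul_sum, Finset.mul_sum]
  rw [Finset.sum_comm (s := Ioc 0 ⌊R⌋₊)]
  refine Finset.sum_congr rfl fun d hd => ?_
  rw [Finset.sum_comm (s := Ioc 0 ⌊R⌋₊)]
  refine Finset.sum_congr rfl fun e he => ?_
  obtain ⟨hd1, hd2⟩ := mem_Icc.1 hd
  have he1 := (mem_Icc.1 he).1
  by_cases hsq : Squarefree d
  · have hg : Squarefree (Nat.gcd d e) := hsq.squarefree_of_dvd (Nat.gcd_dvd_left d e)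
    have hg0 : (0 : ℝ) < (Nat.gcd d e : ℕ) := by exact_mod_cast Nat.pos_of_ne_zero hg.ne_zero
    have hl0 : (0 : ℝ) < (Nat.lcm d e : ℕ) := by exact_mod_cast Nat.lcm_pos hd1 he1
    have e1 : ((Nat.lcm d e : ℕ) : ℝ) ^ (-α) =
        (d : ℝ) ^ (-α) * (e : ℝ) ^ (-α) * ((Nat.gcd d e : ℕ) : ℝ) ^ α := by
      rw [← Real.mul_rpow (by positivity) (by positivity), ← Nat.cast_mul, ← Nat.gcd_mul_lcm,
        Nat.cast_mul, Real.mul_rpow hg0.le hl0.le, Real.rpow_neg hg0.le]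
      have : 0 < ((Nat.gcd d e : ℕ) : ℝ) ^ α := by positivity
      field_simp
    have e2 : (Nat.gcd d e).divisors = (Ioc 0 ⌊R⌋₊).filter (fun r => r ∣ d ∧ r ∣ e) := by
      ext r
      simp only [Nat.mem_divisors, mem_filter, mem_Ioc, Nat.dvd_gcd_iff]
      constructor
      · rintro ⟨⟨h1, h2⟩, -⟩
        exact ⟨⟨Nat.pos_of_dvd_of_pos h1 hd1, (Nat.le_of_dvd hd1 h1).trans hd2⟩, h1, h2⟩
      · rintro ⟨-, h⟩
        exact ⟨h, hg.ne_zero⟩
    rw [e1, ← ff_sum α hg, e2, Finset.sum_filter, Finset.mul_sum, Finset.mul_sum]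
    refine Finset.sum_congr rfl fun r _ => ?_
    by_cases h1 : r ∣ d <;> by_cases h2 : r ∣ e <;> simp only [h1, h2, if_true, if_false,
      and_self, and_false, false_and, mul_zero, zero_mul]
    ring
  · simp [wt_zero hsq]

open Classical in
lemma ff_bound {α : ℝ} (hα : 0 ≤ α) (r : ℕ) :
    |ff α r| ≤ if Squarefree r then (r : ℝ) ^ α else 0 := by
  unfold ff PP
  split_ifs with h
  · rw [sqfree_rpow h, Finset.abs_prod]
    refine Finset.prod_le_prod (fun p _ => abs_nonneg _) fun p hp => ?_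
    have hp1 : (1 : ℝ) ≤ p := by exact_mod_cast (Nat.prime_of_mem_primeFactors hp).one_lt.le
    have a1 : 1 ≤ (p : ℝ) ^ α := Real.one_le_rpow hp1 hα
    rw [abs_le]
    constructor <;> linarith
  · simp

theorem qf : S_QF := by
  classical
  refine ⟨49 * Real.exp 6, by positivity, fun δ R R' α hδ hδ1 hR hR' hα => ?_⟩
  have hα1 : 1 ≤ α := by rcases hα with rfl | rfl <;> linarith
  have hR0 : 0 < R := by linarith
  have hR0' : 0 < R' := by linarith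
  rw [QF_eq]
  refine (Finset.abs_sum_le_sum_abs _ _).trans ?_
  have h1 : ∀ r ∈ Ioc 0 ⌊R⌋₊, |ff α r * (YY δ α R r * YY δ α R' r)| ≤
      49 * (R * R') ^ (3 * δ) * δ ^ 2 *
        (if Squarefree r then rho r ^ 2 * (r : ℝ)⁻¹ else 0) := by
    intro r hr
    have hr0 : r ≠ 0 := (mem_Ioc.1 hr).1.ne'
    have hrp : (0 : ℝ) < r := by exact_mod_cast Nat.pos_of_ne_zero hr0
    have hr1 : (1 : ℝ) ≤ r := by exact_mod_cast Nat.pos_of_ne_zero hr0
    have a1 := YY_bound hr0 hδ hδ1 hR hα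
    have a2 := YY_bound hr0 hδ hδ1 hR' hα
    have a3 := ff_bound (by linarith : 0 ≤ α) r
    have hrho := one_le_rho r
    rw [abs_mul, abs_mul]
    split_ifs at a3 ⊢ with h
    · have b1 : (r : ℝ) ^ α * (r : ℝ) ^ (-α) = 1 := by
        rw [← Real.rpow_add hrp]; simp
      have b2 : (r : ℝ) ^ (-α) ≤ (r : ℝ)⁻¹ := by
        rw [← Real.rpow_neg_one]
        exact Real.rpow_le_rpow_of_exponent_le hr1 (by linarith)
      have b3 : R ^ (2 * δ) * R' ^ (2 * δ) ≤ (R * R') ^ (3 * δ) := by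
        rw [← Real.mul_rpow hR0.le hR0'.le]
        exact Real.rpow_le_rpow_of_exponent_le (by nlinarith) (by linarith)
      calc |ff α r| * (|YY δ α R r| * |YY δ α R' r|)
          ≤ (r : ℝ) ^ α * ((7 * δ * R ^ (2 * δ) * rho r * (r : ℝ) ^ (-α)) *
            (7 * δ * R' ^ (2 * δ) * rho r * (r : ℝ) ^ (-α))) := by gcongr
        _ = 49 * (R ^ (2 * δ) * R' ^ (2 * δ)) * δ ^ 2 *
            (rho r ^ 2 * (r : ℝ) ^ (-α)) * ((r : ℝ) ^ α * (r : ℝ) ^ (-α)) := by ring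
        _ ≤ 49 * (R * R') ^ (3 * δ) * δ ^ 2 * (rho r ^ 2 * (r : ℝ)⁻¹) := by
          rw [b1, mul_one]
          gcongr
    · have : |ff α r| = 0 := le_antisymm a3 (abs_nonneg _)
      rw [this]
      simp
  refine (Finset.sum_le_sum h1).trans ?_
  rw [← Finset.mul_sum]
  have h2 := final_sum ⌊R⌋₊ hR (Nat.floor_le hR0.le)
  calc 49 * (R * R') ^ (3 * δ) * δ ^ 2 * _
      ≤ 49 * (R * R') ^ (3 * δ) * δ ^ 2 * (Real.exp 6 * (1 + Real.log R)) :=
        mul_le_mul_of_nonneg_left h2 (by positivity)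
    _ = _ := by ring

end

end Pool.Agent.H168Z.QF
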